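import Mathlib
set_option autoImplicit false
open MeasureTheory Filter Topology

namespace Pool.Agent.H59.LD


/-- Fubini with a reflection. -/
theorem ref_nonneg {ι : Type*} [Fintype ι] (σ : ι → ι) (p : ι → Prop)
    [DecidablePred p] (hσ : ∀ x, σ (σ x) = x) (hp : ∀ x, p (σ x) ↔ ¬ p x)
    (P : (ι → ℝ) → ℝ) (hP : ∀ φ ψ : ι → ℝ, (∀ x, p x → φ x = ψ x) → P φ = P ψ) :
    0 ≤ ∫ φ : ι → ℝ, P (fun x => φ (σ x)) * P φ := by
  classical
  set Q : ({x // p x} → ℝ) → ℝ := fun ψ => P (fun x => if h : p x then ψ ⟨x, h⟩ else 0) with hQ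
  let τ : {x // p x} ≃ {x // ¬ p x} :=
    { toFun := fun x => ⟨σ x.1, by rw [hp]; exact not_not.2 x.2⟩
      invFun := fun y => ⟨σ y.1, (hp y.1).2 y.2⟩
      left_inv := fun x => Subtype.ext (hσ x.1)
      right_inv := fun y => Subtype.ext (hσ y.1) }
  set Q' : ({x // ¬ p x} → ℝ) → ℝ := fun χ => Q (fun x => χ (τ x)) with hQ'
  have h1 : ∀ φ : ι → ℝ, P φ = Q (fun x : {x // p x} => φ x.1) := by
    intro φ
    rw [hQ]
    apply hP
    intro x hx
    simp [hx]
  have h2 : ∀ φ : ι → ℝ, P (fun x => φ (σ x)) = Q' (fun y : {x // ¬ p x} => φ y.1) := by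
    intro φ
    rw [h1]
    rfl
  have hmp := volume_preserving_piEquivPiSubtypeProd (fun _ : ι => ℝ) p
  have h3 : ∫ φ : ι → ℝ, P (fun x => φ (σ x)) * P φ =
      ∫ z : ({x // p x} → ℝ) × ({x // ¬ p x} → ℝ), Q z.1 * Q' z.2 := by
    rw [← hmp.integral_comp (MeasurableEquiv.measurableEmbedding _)]
    congr 1
    funext φ
    rw [h2 φ, h1 φ, mul_comm]
    rfl
  have h4 : ∫ z : ({x // p x} → ℝ) × ({x // ¬ p x} → ℝ), Q z.1 * Q' z.2 =
      (∫ ψ, Q ψ) * ∫ χ, Q' χ := by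
    exact integral_prod_mul (μ := (volume : Measure ({x // p x} → ℝ)))
      (ν := (volume : Measure ({x // ¬ p x} → ℝ))) Q Q'
  have h5 : ∫ χ, Q' χ = ∫ ψ, Q ψ := by
    have hm := volume_measurePreserving_piCongrLeft (fun _ : {x // ¬ p x} => ℝ) τ
    rw [← hm.integral_comp (MeasurableEquiv.measurableEmbedding _)]
    congr 1
    funext ψ
    change Q (fun x => (MeasurableEquiv.piCongrLeft (fun _ : {x // ¬ p x} => ℝ) τ) ψ (τ x)) = Q ψ
    have hh : (fun x : {x // p x} =>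
        ((MeasurableEquiv.piCongrLeft (fun _ : {x // ¬ p x} => ℝ) τ) ψ (τ x) : ℝ)) = ψ :=
      funext fun x => Equiv.piCongrLeft_apply_apply (fun _ => ℝ) τ ψ x
    exact congrArg Q hh
  rw [h3, h4, h5]
  exact mul_self_nonneg _



variable {ι : Type} [Fintype ι]

/-- continuous functions of at most Gaussian growth -/
def Gr (F : (ι → ℝ) → ℝ) : Prop :=
  Continuous F ∧ ∃ C : ℝ, 0 ≤ C ∧ ∀ φ, |F φ| ≤ C * Real.exp (C * ∑ x, φ x ^ 2)

theorem sq_nonneg_sum (φ : ι → ℝ) : 0 ≤ ∑ x, φ x ^ 2 := Finset.sum_nonneg fun _ _ => sq_nonneg _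

theorem Gr.mul {F G : (ι → ℝ) → ℝ} (hF : Gr F) (hG : Gr G) : Gr (fun φ => F φ * G φ) := by
  obtain ⟨hFc, C, hC, hF⟩ := hF
  obtain ⟨hGc, D, hD, hG⟩ := hG
  refine ⟨hFc.mul hGc, max (C * D) (C + D), le_max_of_le_left (mul_nonneg hC hD), fun φ => ?_⟩
  have hs := sq_nonneg_sum φ
  rw [abs_mul]
  calc |F φ| * |G φ| ≤ (C * Real.exp (C * ∑ x, φ x ^ 2)) * (D * Real.exp (D * ∑ x, φ x ^ 2)) :=
        mul_le_mul (hF φ) (hG φ) (abs_nonneg _) (by positivity)
    _ = (C * D) * Real.exp ((C + D) * ∑ x, φ x ^ 2) := by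
        rw [add_mul, Real.exp_add]; ring
    _ ≤ max (C * D) (C + D) * Real.exp (max (C * D) (C + D) * ∑ x, φ x ^ 2) := by
        gcongr
        · exact le_max_left _ _
        · exact le_max_right _ _

theorem Gr.add {F G : (ι → ℝ) → ℝ} (hF : Gr F) (hG : Gr G) : Gr (fun φ => F φ + G φ) := by
  obtain ⟨hFc, C, hC, hF⟩ := hF
  obtain ⟨hGc, D, hD, hG⟩ := hG
  refine ⟨hFc.add hGc, C + D, add_nonneg hC hD, fun φ => ?_⟩
  have hs := sq_nonneg_sum φ
  calc |F φ + G φ| ≤ |F φ| + |G φ| := abs_add_le _ _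
    _ ≤ C * Real.exp (C * ∑ x, φ x ^ 2) + D * Real.exp (D * ∑ x, φ x ^ 2) :=
        add_le_add (hF φ) (hG φ)
    _ ≤ C * Real.exp ((C + D) * ∑ x, φ x ^ 2) + D * Real.exp ((C + D) * ∑ x, φ x ^ 2) := by
        gcongr
        · linarith
        · linarith
    _ = (C + D) * Real.exp ((C + D) * ∑ x, φ x ^ 2) := by ring

theorem gr_const (c : ℝ) : Gr (fun _ : ι → ℝ => c) := by
  refine ⟨continuous_const, |c|, abs_nonneg c, fun φ => ?_⟩
  have hs := sq_nonneg_sum φ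
  have : 1 ≤ Real.exp (|c| * ∑ x, φ x ^ 2) := Real.one_le_exp (by positivity)
  nlinarith [abs_nonneg c]

theorem gr_coord (x : ι) : Gr (fun φ : ι → ℝ => φ x) := by
  refine ⟨continuous_apply x, 1, zero_le_one, fun φ => ?_⟩
  have h1 : φ x ^ 2 ≤ ∑ x, φ x ^ 2 :=
    Finset.single_le_sum (f := fun x => φ x ^ 2) (fun _ _ => sq_nonneg _) (Finset.mem_univ x)
  have h2 := Real.add_one_le_exp (1 * ∑ x, φ x ^ 2)
  have h3 : |φ x| ≤ 1 + φ x ^ 2 := by
    rw [← sq_abs (φ x)]; nlinarith [sq_nonneg (|φ x| - 1), abs_nonneg (φ x)]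
  linarith

theorem Gr.sum {α : Type*} (s : Finset α) {F : α → (ι → ℝ) → ℝ} (hF : ∀ a ∈ s, Gr (F a)) :
    Gr (fun φ => ∑ a ∈ s, F a φ) := by
  classical
  induction s using Finset.induction_on with
  | empty => simpa using gr_const (ι := ι) 0
  | insert a s ha ih =>
    have h := (hF a (Finset.mem_insert_self a s)).add
      (ih fun b hb => hF b (Finset.mem_insert_of_mem hb))
    simpa [Finset.sum_insert ha] using h

theorem Gr.prod {α : Type*} (s : Finset α) {F : α → (ι → ℝ) → ℝ} (hF : ∀ a ∈ s, Gr (F a)) :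
    Gr (fun φ => ∏ a ∈ s, F a φ) := by
  classical
  induction s using Finset.induction_on with
  | empty => simpa using gr_const (ι := ι) 1
  | insert a s ha ih =>
    have h := (hF a (Finset.mem_insert_self a s)).mul
      (ih fun b hb => hF b (Finset.mem_insert_of_mem hb))
    simpa [Finset.prod_insert ha] using h

theorem Gr.comp {F : (ι → ℝ) → ℝ} (hF : Gr F) (σ : ι ≃ ι) :
    Gr (fun φ => F (fun x => φ (σ x))) := by
  obtain ⟨hFc, C, hC, hF⟩ := hF
  refine ⟨hFc.comp (by fun_prop), C, hC, fun φ => ?_⟩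
  have := hF (fun x => φ (σ x))
  rwa [Equiv.sum_comp σ (fun x => φ x ^ 2)] at this

/-- exponentials of functions bounded by `C * ∑ φ x ^ 2` -/
theorem gr_exp {S : (ι → ℝ) → ℝ} (hS : Continuous S) {C : ℝ}
    (h : ∀ φ, S φ ≤ C * ∑ x, φ x ^ 2) : Gr (fun φ => Real.exp (S φ)) := by
  refine ⟨Real.continuous_exp.comp hS, max 1 C, le_max_of_le_left zero_le_one, fun φ => ?_⟩
  have hs := sq_nonneg_sum φ
  rw [abs_of_pos (Real.exp_pos _)]
  calc Real.exp (S φ) ≤ 1 * Real.exp (max 1 C * ∑ x, φ x ^ 2) := by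
        rw [one_mul]
        refine Real.exp_le_exp.2 ((h φ).trans ?_)
        gcongr
        exact le_max_right _ _
    _ ≤ _ := by
        gcongr
        exact le_max_left _ _

/-- integrability against `exp (-H)` -/
theorem Gr.integrable {F H : (ι → ℝ) → ℝ} (hF : Gr F) (hH : Continuous H)
    (hI : ∀ C : ℝ, Integrable (fun φ : ι → ℝ => Real.exp (C * ∑ x, φ x ^ 2 - H φ))) :
    Integrable (fun φ => F φ * Real.exp (-H φ)) := by
  obtain ⟨hFc, C, hC, hF⟩ := hF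
  refine ((hI C).const_mul C).mono' ?_ (ae_of_all _ fun φ => ?_)
  · exact (hFc.mul (Real.continuous_exp.comp hH.neg)).aestronglyMeasurable
  · rw [Real.norm_eq_abs, abs_mul, abs_of_pos (Real.exp_pos _), sub_eq_add_neg, Real.exp_add,
      ← mul_assoc]
    exact mul_le_mul_of_nonneg_right (hF φ) (Real.exp_pos _).le


theorem Gr.abs {F : (ι → ℝ) → ℝ} (hF : Gr F) : Gr (fun φ => |F φ|) := by
  obtain ⟨hFc, C, hC, hF⟩ := hF
  exact ⟨hFc.abs, C, hC, fun φ => by rw [abs_abs]; exact hF φ⟩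

/-- reflection positivity, abstract form -/
theorem rp_core (σ : ι ≃ ι) (hσ : ∀ x, σ (σ x) = x) (p : ι → Prop) [DecidablePred p]
    (hp : ∀ x, p (σ x) ↔ ¬ p x) (H h : (ι → ℝ) → ℝ) (hH : Continuous H)
    (hI : ∀ C : ℝ, Integrable (fun φ : ι → ℝ => Real.exp (C * ∑ x, φ x ^ 2 - H φ)))
    (hh : ∀ φ ψ : ι → ℝ, (∀ x, p x → φ x = ψ x) → h φ = h ψ)
    {m : ℕ} (u : Fin m → (ι → ℝ) → ℝ) (hu : ∀ z, Gr (u z))
    (hup : ∀ (z : Fin m) (φ ψ : ι → ℝ), (∀ x, p x → φ x = ψ x) → u z φ = u z ψ)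
    (C : ℝ) (hS : ∀ φ : ι → ℝ, |∑ z, u z (fun x => φ (σ x)) * u z φ| ≤ C * ∑ x, φ x ^ 2)
    (hdec : ∀ φ : ι → ℝ, -H φ = -h φ - h (fun x => φ (σ x)) +
      ∑ z, u z (fun x => φ (σ x)) * u z φ)
    (G : (ι → ℝ) → ℝ) (hG : Gr G)
    (hGp : ∀ φ ψ : ι → ℝ, (∀ x, p x → φ x = ψ x) → G φ = G ψ) :
    0 ≤ ∫ φ : ι → ℝ, G (fun x => φ (σ x)) * G φ * Real.exp (-H φ) := by
  classical
  set S : (ι → ℝ) → ℝ := fun φ => ∑ z, u z (fun x => φ (σ x)) * u z φ with hSdef
  have hSc : Continuous S := by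
    refine continuous_finsetSum _ fun z _ => ?_
    exact ((hu z).comp σ).1.mul (hu z).1
  have hnS : Gr (fun φ => Real.exp (-S φ)) :=
    gr_exp hSc.neg (C := C) fun φ => (neg_le_abs _).trans (hS φ)
  set W : (ι → ℝ) → ℝ := fun φ => G (fun x => φ (σ x)) * G φ * Real.exp (-S φ) with hWdef
  have hW : Gr W := ((hG.comp σ).mul hG).mul hnS
  have hE : ∀ φ : ι → ℝ, Real.exp (-S φ) * Real.exp (-H φ) =
      Real.exp (-h φ) * Real.exp (-h (fun x => φ (σ x))) := by
    intro φ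
    rw [← Real.exp_add, ← Real.exp_add, hdec φ]
    congr 1
    simp only [hSdef]
    ring
  have key : ∀ k : ℕ, 0 ≤ ∫ φ : ι → ℝ, S φ ^ k * (W φ * Real.exp (-H φ)) := by
    intro k
    have e1 : ∀ φ : ι → ℝ, S φ ^ k * (W φ * Real.exp (-H φ)) =
        ∑ z : Fin k → Fin m, ((∏ i, (u (z i) (fun x => φ (σ x)) * u (z i) φ)) * W φ) *
          Real.exp (-H φ) := by
      intro φ
      change (∑ z, u z (fun x => φ (σ x)) * u z φ) ^ k * (W φ * Real.exp (-H φ)) = _
      rw [Fintype.sum_pow, ← Finset.sum_mul, ← Finset.sum_mul]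
      ring
    simp_rw [e1]
    rw [integral_finsetSum]
    · refine Finset.sum_nonneg fun z _ => ?_
      have e2 : ∀ φ : ι → ℝ, ((∏ i, (u (z i) (fun x => φ (σ x)) * u (z i) φ)) * W φ) *
          Real.exp (-H φ) =
          (fun ψ : ι → ℝ => G ψ * Real.exp (-h ψ) * ∏ i, u (z i) ψ) (fun x => φ (σ x)) *
          (fun ψ : ι → ℝ => G ψ * Real.exp (-h ψ) * ∏ i, u (z i) ψ) φ := by
        intro φ
        simp only [hWdef]
        rw [mul_assoc, mul_assoc (G _ * G _), hE φ, Finset.prod_mul_distrib]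
        ring
      simp_rw [e2]
      refine ref_nonneg σ p hσ hp (fun ψ : ι → ℝ => G ψ * Real.exp (-h ψ) * ∏ i, u (z i) ψ) ?_
      intro φ ψ hφψ
      change G φ * Real.exp (-h φ) * ∏ i, u (z i) φ = G ψ * Real.exp (-h ψ) * ∏ i, u (z i) ψ
      rw [hGp φ ψ hφψ, hh φ ψ hφψ]
      congr 1
      exact Finset.prod_congr rfl fun i _ => hup (z i) φ ψ hφψ
    · intro z _
      refine Gr.integrable ((Gr.prod _ fun i _ => ?_).mul hW) hH hI
      exact ((hu (z i)).comp σ).mul (hu (z i))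
  have hint : ∀ k : ℕ, Integrable (fun φ : ι → ℝ => S φ ^ k * (W φ * Real.exp (-H φ))) := by
    intro k
    have hSg : Gr S := by
      refine Gr.sum _ fun z _ => ?_
      exact ((hu z).comp σ).mul (hu z)
    have h1 : Gr (fun φ => S φ ^ k * W φ) := by
      have h2 : Gr (fun φ => ∏ _i : Fin k, S φ) := Gr.prod _ fun _ _ => hSg
      simp only [Finset.prod_const, Finset.card_univ, Fintype.card_fin] at h2
      exact h2.mul hW
    have h3 := h1.integrable hH hI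
    simpa only [mul_assoc] using h3
  have keyn : ∀ n : ℕ, 0 ≤ ∫ φ : ι → ℝ, (∑ k ∈ Finset.range n, S φ ^ k / (k.factorial : ℝ)) *
      (W φ * Real.exp (-H φ)) := by
    intro n
    have e1 : ∀ φ : ι → ℝ, (∑ k ∈ Finset.range n, S φ ^ k / (k.factorial : ℝ)) *
        (W φ * Real.exp (-H φ)) = ∑ k ∈ Finset.range n, ((k.factorial : ℝ))⁻¹ *
          (S φ ^ k * (W φ * Real.exp (-H φ))) := by
      intro φ
      rw [Finset.sum_mul]
      refine Finset.sum_congr rfl fun k _ => ?_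
      rw [div_eq_mul_inv]; ring
    simp_rw [e1]
    rw [integral_finsetSum _ fun k _ => (hint k).const_mul _]
    refine Finset.sum_nonneg fun k _ => ?_
    rw [integral_const_mul]
    exact mul_nonneg (by positivity) (key k)
  have lim : Tendsto (fun n : ℕ => ∫ φ : ι → ℝ,
      (∑ k ∈ Finset.range n, S φ ^ k / (k.factorial : ℝ)) * (W φ * Real.exp (-H φ))) atTop
      (𝓝 (∫ φ : ι → ℝ, Real.exp (S φ) * (W φ * Real.exp (-H φ)))) := by
    refine tendsto_integral_of_dominated_convergence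
      (fun φ => Real.exp (|S φ|) * |W φ| * Real.exp (-H φ)) ?_ ?_ ?_ ?_
    · intro n
      refine Continuous.aestronglyMeasurable ?_
      refine (continuous_finsetSum _ fun k _ => ((hSc.pow k).div_const _)).mul
        (hW.1.mul (Real.continuous_exp.comp hH.neg))
    · exact ((gr_exp hSc.abs (C := C) hS).mul hW.abs).integrable hH hI
    · intro n
      refine ae_of_all _ fun φ => ?_
      rw [Real.norm_eq_abs, abs_mul, abs_mul, abs_of_pos (Real.exp_pos (-H φ)), mul_assoc]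
      refine mul_le_mul_of_nonneg_right ?_ (by positivity)
      refine (Finset.abs_sum_le_sum_abs _ _).trans ?_
      refine le_trans (le_of_eq ?_) (Real.sum_le_exp_of_nonneg (abs_nonneg (S φ)) n)
      refine Finset.sum_congr rfl fun k _ => ?_
      rw [abs_div, abs_pow, Nat.abs_cast]
    · refine ae_of_all _ fun φ => ?_
      refine Tendsto.mul_const _ ?_
      have := (NormedSpace.expSeries_div_hasSum_exp (S φ)).tendsto_sum_nat
      rwa [← Real.exp_eq_exp_ℝ] at this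
  have hfin : ∀ φ : ι → ℝ, Real.exp (S φ) * (W φ * Real.exp (-H φ)) =
      G (fun x => φ (σ x)) * G φ * Real.exp (-H φ) := by
    intro φ
    simp only [hWdef]
    have : Real.exp (S φ) * Real.exp (-S φ) = 1 := by rw [← Real.exp_add]; simp
    calc Real.exp (S φ) * (G (fun x => φ (σ x)) * G φ * Real.exp (-S φ) * Real.exp (-H φ))
        = (Real.exp (S φ) * Real.exp (-S φ)) *
          (G (fun x => φ (σ x)) * G φ * Real.exp (-H φ)) := by ring
      _ = _ := by rw [this, one_mul]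
  simp_rw [hfin] at lim
  exact ge_of_tendsto' lim keyn

end Pool.Agent.H59.LD
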