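import Pool.Agent.H80.LD.Targets
import Pool.Agent.H59.LD.RPA

set_option autoImplicit false
open MeasureTheory Filter Topology SchwartzMap
open scoped InnerProductSpace
open Pool.Agent.H43.DPC (V S SD moment trans rot)
open Pool.Agent.H80.LD

namespace Pool.Agent.H59.LD

theorem inner_Re {d : ℕ} (e v : V d) : ⟪e, Re e v⟫_ℝ = -⟪e, v⟫_ℝ := by
  have h1 : Re e e = -e := Submodule.reflection_orthogonalComplement_singleton_eq_neg e
  have h2 : Re e (-e) = e := by rw [map_neg, h1, neg_neg]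
  calc ⟪e, Re e v⟫_ℝ = ⟪Re e (-e), Re e v⟫_ℝ := by rw [h2]
    _ = ⟪-e, v⟫_ℝ := (Re e).inner_map_map _ _
    _ = _ := inner_neg_left _ _

/-- splitting a sum into the right half and its reflection -/
theorem sum_split {N : ℕ} (σ : Fin N ≃ Fin N) (r : Fin N → ℝ) (hr : ∀ x, r (σ x) = 1 - r x)
    (hσ : ∀ x, σ (σ x) = x) (f : Fin N → ℝ) :
    ∑ x, f x = ∑ x, r x * f x + ∑ x, r x * f (σ x) := by
  have h1 : ∑ x, r x * f (σ x) = ∑ x, r (σ x) * f x := by
    rw [← Equiv.sum_comp σ (fun x => r (σ x) * f x)]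
    simp [hσ]
  rw [h1, ← Finset.sum_add_distrib]
  refine Finset.sum_congr rfl fun x _ => ?_
  rw [hr]; ring

theorem pf_RPF (hLAW : T_LAW) : T_RPF := by
  classical
  intro d e A m c F hF
  obtain ⟨hI, hZ, hprob, hint, -⟩ := hLAW d e A
  let σ : Fin A.N ≃ Fin A.N := ⟨A.σ, A.σ, A.σ_σ, A.σ_σ⟩
  have hσ : ∀ x, σ (σ x) = x := A.σ_σ
  let p : Fin A.N → Prop := fun x => 0 < ⟪e, A.pos x⟫_ℝ
  have hp : ∀ x, p (σ x) ↔ ¬ p x := by
    intro x
    have h0 := A.off x
    show 0 < ⟪e, A.pos (A.σ x)⟫_ℝ ↔ ¬ 0 < ⟪e, A.pos x⟫_ℝ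
    rw [A.pos_σ, inner_Re]
    constructor
    · intro h; linarith
    · intro h
      rcases lt_or_gt_of_ne h0 with h1 | h1
      · linarith
      · exact absurd h1 h
  let r : Fin A.N → ℝ := fun x => if p x then 1 else 0
  have hr : ∀ x, r (σ x) = 1 - r x := by
    intro x
    by_cases h : p x
    · have h' : ¬ p (σ x) := by rw [hp]; exact not_not.2 h
      simp [r, h, h']
    · have h' : p (σ x) := (hp x).2 h
      simp [r, h, h']
  have hrp : ∀ x, r x ≠ 0 → p x := by
    intro x hx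
    by_contra h
    exact hx (by simp [r, h])
  -- the matrix
  let M : Matrix (Fin A.N) (Fin A.N) ℝ := fun x y => r x * r y * A.J (σ x) y
  have hMps : M.PosSemidef := by
    rw [Matrix.posSemidef_iff_dotProduct_mulVec]
    constructor
    · ext x y
      show star (r y * r x * A.J (σ y) x) = r x * r y * A.J (σ x) y
      have h1 : A.J (σ y) x = A.J (σ x) y := by
        have h2 := A.J_σ (σ y) x
        rw [← h2]
        show A.J (A.σ (A.σ y)) (A.σ x) = A.J (A.σ x) y
        rw [A.σ_σ, A.J_symm]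
      rw [star_trivial, h1]; ring
    · intro v
      have h1 := A.rp (fun x => r x * v x) (by
        intro x hx
        have : ¬ p x := fun h => absurd h (not_lt.2 hx.le)
        simp [r, this])
      refine h1.trans (le_of_eq ?_)
      simp only [dotProduct, Matrix.mulVec, Pi.star_apply, star_trivial, Finset.mul_sum]
      refine Finset.sum_congr rfl fun x _ => Finset.sum_congr rfl fun y _ => ?_
      show r x * v x * (r y * v y) * A.J (A.σ x) y = v x * (r x * r y * A.J (σ x) y * v y)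
      show r x * v x * (r y * v y) * A.J (σ x) y = v x * (r x * r y * A.J (σ x) y * v y)
      ring
  obtain ⟨k, B, hB⟩ := Matrix.posSemidef_iff_eq_sum_vecMulVec.1 hMps
  have hM : ∀ x y, r x * r y * A.J (σ x) y = ∑ z, B z x * B z y := by
    intro x y
    have h1 : M x y = (∑ z, Matrix.vecMulVec (B z) (star (B z))) x y := by rw [← hB]
    rw [Matrix.sum_apply] at h1
    exact h1
  let u : Fin k → (Fin A.N → ℝ) → ℝ := fun z φ => ∑ y, r y * B z y * φ y
  have hrr : ∀ x, r x * r x = r x := by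
    intro x
    by_cases h : p x <;> simp [r, h]
  have hSS : ∀ φ : Fin A.N → ℝ, ∑ z, u z (fun x => φ (σ x)) * u z φ =
      ∑ x, ∑ y, r x * r y * A.J (σ x) y * φ (σ x) * φ y := by
    intro φ
    have e1 : ∀ x y, r x * r y * A.J (σ x) y * φ (σ x) * φ y =
        ∑ z, (r x * B z x * φ (σ x)) * (r y * B z y * φ y) := by
      intro x y
      have h1 : r x * r y * A.J (σ x) y = (r x * r y) * (r x * r y * A.J (σ x) y) := by
        calc r x * r y * A.J (σ x) y = (r x * r x) * (r y * r y) * A.J (σ x) y := by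
              rw [hrr, hrr]
          _ = _ := by ring
      rw [h1, hM x y, Finset.mul_sum, Finset.sum_mul, Finset.sum_mul]
      refine Finset.sum_congr rfl fun z _ => ?_
      ring
    simp_rw [e1]
    have e2 : ∀ z, u z (fun x => φ (σ x)) * u z φ =
        ∑ x, ∑ y, (r x * B z x * φ (σ x)) * (r y * B z y * φ y) := by
      intro z
      exact Finset.sum_mul_sum _ _ _ _
    simp_rw [e2]
    rw [Finset.sum_comm]
    refine Finset.sum_congr rfl fun x _ => ?_
    rw [Finset.sum_comm]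
  let h : (Fin A.N → ℝ) → ℝ := fun φ => ∑ x, r x * (A.g x * φ x ^ 4 + A.b x * φ x ^ 2) -
    1 / 2 * ∑ x, ∑ y, r x * r y * (A.J x y * φ x * φ y)
  have hdec : ∀ φ : Fin A.N → ℝ, -A.H φ = -h φ - h (fun x => φ (σ x)) +
      ∑ z, u z (fun x => φ (σ x)) * u z φ := by
    intro φ
    rw [hSS φ]
    have e1 := sum_split σ r hr hσ (fun x => A.g x * φ x ^ 4 + A.b x * φ x ^ 2)
    have e1' : ∑ x, r x * (A.g (σ x) * φ (σ x) ^ 4 + A.b (σ x) * φ (σ x) ^ 2) =
        ∑ x, r x * (A.g x * φ (σ x) ^ 4 + A.b x * φ (σ x) ^ 2) := by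
      refine Finset.sum_congr rfl fun x _ => ?_
      have h1 : A.g (σ x) = A.g x := A.g_σ x
      have h2 : A.b (σ x) = A.b x := A.b_σ x
      rw [h1, h2]
    have e2 : ∑ x, ∑ y, A.J x y * φ x * φ y =
        ∑ x, ∑ y, r x * r y * (A.J x y * φ x * φ y) +
        ∑ x, ∑ y, r x * r y * (A.J x y * φ (σ x) * φ (σ y)) +
        2 * ∑ x, ∑ y, r x * r y * A.J (σ x) y * φ (σ x) * φ y := by
      have f1 := sum_split σ r hr hσ (fun x => ∑ y, A.J x y * φ x * φ y)
      rw [f1]
      have f2 : ∀ x, r x * ∑ y, A.J x y * φ x * φ y =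
          ∑ y, r x * r y * (A.J x y * φ x * φ y) +
          ∑ y, r x * r y * (A.J x (σ y) * φ x * φ (σ y)) := by
        intro x
        rw [sum_split σ r hr hσ (fun y => A.J x y * φ x * φ y), mul_add, Finset.mul_sum,
          Finset.mul_sum]
        congr 1 <;> exact Finset.sum_congr rfl fun y _ => by ring
      have f3 : ∀ x, r x * ∑ y, A.J (σ x) y * φ (σ x) * φ y =
          ∑ y, r x * r y * A.J (σ x) y * φ (σ x) * φ y +
          ∑ y, r x * r y * (A.J x y * φ (σ x) * φ (σ y)) := by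
        intro x
        rw [sum_split σ r hr hσ (fun y => A.J (σ x) y * φ (σ x) * φ y), mul_add, Finset.mul_sum,
          Finset.mul_sum]
        congr 1
        · exact Finset.sum_congr rfl fun y _ => by ring
        · refine Finset.sum_congr rfl fun y _ => ?_
          have h1 : A.J (σ x) (σ y) = A.J x y := A.J_σ x y
          rw [h1]; ring
      have f4 : ∑ x, ∑ y, r x * r y * (A.J x (σ y) * φ x * φ (σ y)) =
          ∑ x, ∑ y, r x * r y * A.J (σ x) y * φ (σ x) * φ y := by
        rw [Finset.sum_comm]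
        refine Finset.sum_congr rfl fun x _ => Finset.sum_congr rfl fun y _ => ?_
        rw [A.J_symm y (σ x)]; ring
      simp_rw [f2, f3, Finset.sum_add_distrib]
      rw [f4]
      ring
    have e3 : A.H φ = ∑ x, (A.g x * φ x ^ 4 + A.b x * φ x ^ 2) -
        1 / 2 * ∑ x, ∑ y, A.J x y * φ x * φ y := rfl
    rw [e3, e1, e1', e2]
    show _ = -(∑ x, r x * (A.g x * φ x ^ 4 + A.b x * φ x ^ 2) -
      1 / 2 * ∑ x, ∑ y, r x * r y * (A.J x y * φ x * φ y)) -
      (∑ x, r x * (A.g x * φ (σ x) ^ 4 + A.b x * φ (σ x) ^ 2) -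
      1 / 2 * ∑ x, ∑ y, r x * r y * (A.J x y * φ (σ x) * φ (σ y))) + _
    ring
  -- bound of the coupling
  have hS : ∀ φ : Fin A.N → ℝ, |∑ z, u z (fun x => φ (σ x)) * u z φ| ≤
      (∑ x, ∑ y, |r x * r y * A.J (σ x) y|) * ∑ x, φ x ^ 2 := by
    intro φ
    rw [hSS φ, Finset.sum_mul]
    refine (Finset.abs_sum_le_sum_abs _ _).trans (Finset.sum_le_sum fun x _ => ?_)
    rw [Finset.sum_mul]
    refine (Finset.abs_sum_le_sum_abs _ _).trans (Finset.sum_le_sum fun y _ => ?_)
    have h1 : ∀ x, φ x ^ 2 ≤ ∑ x, φ x ^ 2 := fun x =>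
      Finset.single_le_sum (f := fun x => φ x ^ 2) (fun _ _ => sq_nonneg _) (Finset.mem_univ x)
    have h2 : |φ (σ x) * φ y| ≤ ∑ x, φ x ^ 2 := by
      rw [abs_le]
      constructor <;>
        nlinarith [h1 (σ x), h1 y, sq_nonneg (φ (σ x) - φ y), sq_nonneg (φ (σ x) + φ y)]
    rw [mul_assoc, abs_mul]
    exact mul_le_mul_of_nonneg_left h2 (abs_nonneg _)
  have hH : Continuous A.H := by
    unfold Sys.H
    fun_prop
  have hh : ∀ φ ψ : Fin A.N → ℝ, (∀ x, p x → φ x = ψ x) → h φ = h ψ := by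
    intro φ ψ hφ
    have h1 : ∀ x, r x * (A.g x * φ x ^ 4 + A.b x * φ x ^ 2) =
        r x * (A.g x * ψ x ^ 4 + A.b x * ψ x ^ 2) := by
      intro x
      by_cases hx : r x = 0
      · rw [hx, zero_mul, zero_mul]
      · rw [hφ x (hrp x hx)]
    have h2 : ∀ x y, r x * r y * (A.J x y * φ x * φ y) = r x * r y * (A.J x y * ψ x * ψ y) := by
      intro x y
      by_cases hx : r x = 0
      · rw [hx, zero_mul, zero_mul, zero_mul]
      by_cases hy : r y = 0
      · rw [hy, mul_zero, zero_mul, zero_mul]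
      rw [hφ x (hrp x hx), hφ y (hrp y hy)]
    show ∑ x, r x * (A.g x * φ x ^ 4 + A.b x * φ x ^ 2) -
      1 / 2 * ∑ x, ∑ y, r x * r y * (A.J x y * φ x * φ y) =
      ∑ x, r x * (A.g x * ψ x ^ 4 + A.b x * ψ x ^ 2) -
      1 / 2 * ∑ x, ∑ y, r x * r y * (A.J x y * ψ x * ψ y)
    simp_rw [h1, h2]
  have hu : ∀ z, Gr (u z) := by
    intro z
    refine Gr.sum _ fun y _ => ?_
    exact (gr_const _).mul (gr_coord y)
  have hup : ∀ (z : Fin k) (φ ψ : Fin A.N → ℝ), (∀ x, p x → φ x = ψ x) → u z φ = u z ψ := by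
    intro z φ ψ hφ
    refine Finset.sum_congr rfl fun y _ => ?_
    by_cases hy : r y = 0
    · rw [hy, zero_mul, zero_mul, zero_mul]
    · rw [hφ y (hrp y hy)]
  -- the observables
  let gj : Fin m → (Fin A.N → ℝ) → ℝ := fun j φ => ((F j).map (fun f => A.fld f φ)).prod
  have hfld : ∀ f : S d, Gr (fun φ => A.fld f φ) := by
    intro f
    refine Gr.sum _ fun x _ => ?_
    exact ((gr_const _).mul (gr_coord x)).mul (gr_const _)
  have hlist : ∀ l : List (S d), Gr (fun φ => (l.map (fun f => A.fld f φ)).prod) := by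
    intro l
    induction l with
    | nil => simpa using gr_const (ι := Fin A.N) 1
    | cons a l ih =>
      have h1 := (hfld a).mul ih
      simpa using h1
  have hgj : ∀ j, Gr (gj j) := fun j => hlist (F j)
  have hgp : ∀ (j : Fin m) (φ ψ : Fin A.N → ℝ), (∀ x, p x → φ x = ψ x) → gj j φ = gj j ψ := by
    intro j φ ψ hφ
    show ((F j).map (fun f => A.fld f φ)).prod = ((F j).map (fun f => A.fld f ψ)).prod
    congr 1
    refine List.map_congr_left fun f hf => ?_
    refine Finset.sum_congr rfl fun x _ => ?_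
    by_cases hx : f (A.pos x) = 0
    · rw [hx, mul_zero, mul_zero]
    · rw [hφ x (hF j f hf _ hx)]
  let G : (Fin A.N → ℝ) → ℝ := fun φ => ∑ j, c j * gj j φ
  have hG : Gr G := Gr.sum _ fun j _ => (gr_const _).mul (hgj j)
  have hGp : ∀ φ ψ : Fin A.N → ℝ, (∀ x, p x → φ x = ψ x) → G φ = G ψ := by
    intro φ ψ hφ
    exact Finset.sum_congr rfl fun j _ => by rw [hgp j φ ψ hφ]
  have hmain := rp_core σ hσ p hp A.H h hH hI hh u hu hup _ hS hdec G hG hGp
  -- the reflected field
  have hrot : ∀ (f : S d) (φ : Fin A.N → ℝ),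
      A.fld (rot (Re e) f) φ = A.fld f (fun x => φ (σ x)) := by
    intro f φ
    show ∑ x, A.w x * φ x * f (Re e (A.pos x)) = ∑ x, A.w x * φ (σ x) * f (A.pos x)
    rw [← Equiv.sum_comp σ (fun x => A.w x * φ x * f (Re e (A.pos x)))]
    refine Finset.sum_congr rfl fun x _ => ?_
    have h1 : A.w (σ x) = A.w x := A.w_σ x
    have h2 : Re e (A.pos (σ x)) = A.pos x := by
      have h3 := A.pos_σ (σ x)
      have h4 : A.σ (σ x) = x := A.σ_σ x
      rw [h4] at h3
      exact h3.symm
    rw [h1, h2]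
  have hmf : ∀ j l, mf A ((F j).map (rot (Re e)) ++ F l) =
      (∫ φ, gj j (fun x => φ (σ x)) * gj l φ * Real.exp (-A.H φ)) /
        ∫ φ, Real.exp (-A.H φ) := by
    intro j l
    unfold mf
    rw [hint]
    congr 1
    refine integral_congr_ae (ae_of_all _ fun φ => ?_)
    show ((((F j).map (rot (Re e)) ++ F l).map (fun f => A.fld f φ)).prod) *
      Real.exp (-A.H φ) = _
    rw [List.map_append, List.prod_append, List.map_map]
    congr 2
    congr 1
    refine List.map_congr_left fun f _ => ?_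
    exact hrot f φ
  have hsum : ∑ j, ∑ l, c j * c l * mf A ((F j).map (rot (Re e)) ++ F l) =
      (∫ φ, G (fun x => φ (σ x)) * G φ * Real.exp (-A.H φ)) / ∫ φ, Real.exp (-A.H φ) := by
    simp_rw [hmf]
    have e1 : ∀ φ : Fin A.N → ℝ, G (fun x => φ (σ x)) * G φ * Real.exp (-A.H φ) =
        ∑ j, ∑ l, (c j * c l) * (gj j (fun x => φ (σ x)) * gj l φ * Real.exp (-A.H φ)) := by
      intro φ
      show (∑ j, c j * gj j (fun x => φ (σ x))) * (∑ j, c j * gj j φ) * Real.exp (-A.H φ) = _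
      rw [Finset.sum_mul_sum, Finset.sum_mul]
      refine Finset.sum_congr rfl fun j _ => ?_
      rw [Finset.sum_mul]
      refine Finset.sum_congr rfl fun l _ => ?_
      ring
    have hi : ∀ j l, Integrable (fun φ : Fin A.N → ℝ =>
        gj j (fun x => φ (σ x)) * gj l φ * Real.exp (-A.H φ)) := by
      intro j l
      exact (((hgj j).comp σ).mul (hgj l)).integrable hH hI
    simp_rw [e1]
    rw [integral_finsetSum _ fun j _ => integrable_finsetSum _ fun l _ => (hi j l).const_mul _]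
    rw [Finset.sum_div]
    refine Finset.sum_congr rfl fun j _ => ?_
    rw [integral_finsetSum _ fun l _ => (hi j l).const_mul _, Finset.sum_div]
    refine Finset.sum_congr rfl fun l _ => ?_
    rw [integral_const_mul]
    ring
  rw [hsum]
  exact div_nonneg hmain hZ.le

end Pool.Agent.H59.LD
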